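import Pool.Agent.Helper70.DK.Defs

/-!
# E6: a bounded second moment bounds the entropy of an integer vector (module of MP_b1773a_an)
-/

set_option autoImplicit false

namespace Pool.Agent.Helper70.DK

open Finset

/-- Gibbs' inequality -/
theorem e6_gibbs {Ω α : Type} (S : Finset Ω) (f : Ω → α) (hS : S.Nonempty) (q : α → ℝ)
    (hq : ∀ ω ∈ S, 0 < q (f ω)) (T : Finset α) (hT : ∀ ω ∈ S, f ω ∈ T) (hq0 : ∀ z ∈ T, 0 ≤ q z)
    (hsum : ∑ z ∈ T, q z ≤ 1) :
    ent S f ≤ (∑ ω ∈ S, -Real.log (q (f ω))) / (S.card : ℝ) := by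
  classical
  have hc : 0 < (S.card : ℝ) := by exact_mod_cast hS.card_pos
  unfold ent
  apply div_le_div_of_nonneg_right _ hc.le
  set N : α → ℝ := fun z => ((S.filter (fun ω' => f ω' = z)).card : ℝ) with hN
  have hNpos : ∀ ω ∈ S, 0 < N (f ω) := by
    intro ω hω
    have : 0 < (S.filter (fun ω' => f ω' = f ω)).card :=
      Finset.card_pos.2 ⟨ω, Finset.mem_filter.2 ⟨hω, rfl⟩⟩
    simp only [hN]
    exact_mod_cast this
  have h1 : ∀ ω ∈ S, (Real.log (S.card : ℝ) - Real.log (N (f ω))) - -Real.log (q (f ω)) ≤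
      (S.card : ℝ) * (q (f ω) / N (f ω)) - 1 := by
    intro ω hω
    have hn := hNpos ω hω
    have hqq := hq ω hω
    have h2 := Real.log_le_sub_one_of_pos (x := (S.card : ℝ) * (q (f ω) / N (f ω))) (by positivity)
    rw [Real.log_mul hc.ne' (by positivity), Real.log_div hqq.ne' hn.ne'] at h2
    linarith
  have h3 : ∑ ω ∈ S, q (f ω) / N (f ω) ≤ 1 := by
    have h4 : ∑ ω ∈ S, q (f ω) / N (f ω) =
        ∑ z ∈ T, ∑ ω ∈ S.filter (fun ω => f ω = z), q (f ω) / N (f ω) :=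
      (Finset.sum_fiberwise_of_maps_to hT _).symm
    rw [h4]
    refine le_trans (Finset.sum_le_sum fun z hz => ?_) hsum
    have h5 : ∑ ω ∈ S.filter (fun ω => f ω = z), q (f ω) / N (f ω) =
        ∑ ω ∈ S.filter (fun ω => f ω = z), q z / N z := by
      refine Finset.sum_congr rfl fun ω hω => ?_
      rw [(Finset.mem_filter.1 hω).2]
    rw [h5, Finset.sum_const, nsmul_eq_mul]
    have h6 : (((S.filter (fun ω => f ω = z)).card : ℕ) : ℝ) = N z := by simp only [hN]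
    rw [h6]
    by_cases h7 : N z = 0
    · rw [h7, zero_mul]
      exact hq0 z hz
    · rw [mul_div_cancel₀ _ h7]
  have h8 : ∑ ω ∈ S, ((Real.log (S.card : ℝ) - Real.log (N (f ω))) - -Real.log (q (f ω))) ≤ 0 := by
    refine le_trans (Finset.sum_le_sum h1) ?_
    rw [Finset.sum_sub_distrib, ← Finset.mul_sum, Finset.sum_const, nsmul_eq_mul, mul_one]
    nlinarith
  rw [Finset.sum_sub_distrib] at h8
  exact sub_nonpos.1 h8

theorem e6_nat (A : Finset ℕ) : ∑ n ∈ A, ((1 : ℝ) / 2) ^ n ≤ 2 := by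
  have h := summable_geometric_two.sum_le_tsum A (fun n _ => by positivity)
  rwa [tsum_geometric_two] at h

theorem e6_int (A : Finset ℤ) : ∑ a ∈ A, (1 / 4 : ℝ) * (1 / 2) ^ a.natAbs ≤ 1 := by
  classical
  rw [← Finset.mul_sum, ← Finset.sum_filter_add_sum_filter_not A (fun a => 0 ≤ a)]
  have h1 : ∑ a ∈ A.filter (fun a => 0 ≤ a), ((1 : ℝ) / 2) ^ a.natAbs ≤ 2 := by
    rw [← Finset.sum_image (f := fun n : ℕ => ((1 : ℝ) / 2) ^ n) (g := Int.natAbs)]
    · exact e6_nat _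
    · intro a ha b hb hab
      have ha' := (Finset.mem_filter.1 ha).2
      have hb' := (Finset.mem_filter.1 hb).2
      omega
  have h2 : ∑ a ∈ A.filter (fun a => ¬ 0 ≤ a), ((1 : ℝ) / 2) ^ a.natAbs ≤ 2 := by
    rw [← Finset.sum_image (f := fun n : ℕ => ((1 : ℝ) / 2) ^ n) (g := Int.natAbs)]
    · exact e6_nat _
    · intro a ha b hb hab
      have ha' := (Finset.mem_filter.1 ha).2
      have hb' := (Finset.mem_filter.1 hb).2
      omega
  linarith

theorem e6_log (a : ℤ) : -Real.log ((1 / 4 : ℝ) * (1 / 2) ^ a.natAbs) ≤ (a : ℝ) ^ 2 + 2 := by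
  have h2 : Real.log 2 < 0.7 := by
    have := Real.log_two_lt_d9
    linarith
  have h20 : 0 < Real.log 2 := Real.log_pos (by norm_num)
  have h3 : Real.log ((1 / 4 : ℝ) * (1 / 2) ^ a.natAbs) = -(2 * Real.log 2) - a.natAbs * Real.log 2 := by
    rw [Real.log_mul (by norm_num) (by positivity), Real.log_pow]
    have h4 : (1 / 4 : ℝ) = (2⁻¹) ^ 2 := by norm_num
    rw [h4, Real.log_pow, Real.log_inv]
    have h5 : (1 / 2 : ℝ) = 2⁻¹ := by norm_num
    rw [h5, Real.log_inv]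
    push_cast
    ring
  rw [h3]
  have h6 : (a.natAbs : ℝ) ≤ (a : ℝ) ^ 2 := by
    have h7 : a.natAbs ≤ a.natAbs ^ 2 := Nat.le_self_pow (by norm_num) _
    have h9 : ((a.natAbs : ℕ) : ℝ) ≤ ((a.natAbs : ℕ) : ℝ) ^ 2 := by exact_mod_cast h7
    have h10 : ((a.natAbs : ℕ) : ℝ) ^ 2 = (a : ℝ) ^ 2 := by
      rw [Nat.cast_natAbs, Int.cast_abs, sq_abs]
    rwa [h10] at h9
  have h8 : 0 ≤ (a.natAbs : ℝ) := Nat.cast_nonneg _
  nlinarith

theorem st_E6 : ST_E6 := by
  classical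
  intro Ω k S Z C hS hC
  have hc : 0 < (S.card : ℝ) := by exact_mod_cast hS.card_pos
  set w : ℤ → ℝ := fun a => (1 / 4 : ℝ) * (1 / 2) ^ a.natAbs with hw
  have hwpos : ∀ a, 0 < w a := fun a => by simp only [hw]; positivity
  have h1 := e6_gibbs S Z hS (fun z => ∏ i, w (z i)) (fun ω _ => Finset.prod_pos fun i _ => hwpos _)
    (Fintype.piFinset fun i => S.image fun x => Z x i)
    (fun ω hω => Fintype.mem_piFinset.2 fun i => Finset.mem_image_of_mem _ hω)
    (fun z _ => (Finset.prod_pos fun i _ => hwpos _).le)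
    (by
      rw [← Finset.prod_univ_sum]
      refine Finset.prod_le_one (fun i _ => Finset.sum_nonneg fun a _ => (hwpos a).le) fun i _ => ?_
      exact e6_int _)
  refine h1.trans ?_
  have h2 : ∀ ω ∈ S, -Real.log (∏ i, w (Z ω i)) ≤ ∑ i, (((Z ω i : ℤ) : ℝ) ^ 2 + 2) := by
    intro ω _
    rw [Real.log_prod (fun i _ => (hwpos _).ne'), ← Finset.sum_neg_distrib]
    exact Finset.sum_le_sum fun i _ => e6_log _
  calc (∑ ω ∈ S, -Real.log (∏ i, w (Z ω i))) / (S.card : ℝ)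
      ≤ (∑ ω ∈ S, ∑ i, (((Z ω i : ℤ) : ℝ) ^ 2 + 2)) / (S.card : ℝ) :=
        div_le_div_of_nonneg_right (Finset.sum_le_sum h2) hc.le
    _ = ∑ i, ((∑ ω ∈ S, ((Z ω i : ℤ) : ℝ) ^ 2) / (S.card : ℝ) + 2) := by
        rw [Finset.sum_comm, Finset.sum_div]
        refine Finset.sum_congr rfl fun i _ => ?_
        rw [Finset.sum_add_distrib, Finset.sum_const, nsmul_eq_mul, add_div]
        congr 1
        field_simp
    _ ≤ ∑ i : Fin k, (C + 2) := Finset.sum_le_sum fun i _ => by linarith [hC i]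
    _ = k * (C + 2) := by rw [Finset.sum_const, Finset.card_univ, Fintype.card_fin, nsmul_eq_mul]

end Pool.Agent.Helper70.DK
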